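import Pool.Agent.Q170.FS.Main

/-!
# The partially bicyclic semigroup has the fixed point property `(F_{*s})`

`S2` is the monoid `⟨e, a, b, c : a b = a c = e⟩` and `HasF S` is the property `(F_{*s})` of the
discrete semigroup `S`, for real and complex Banach spaces.  The same holds for every monoid
which is generated by an element `a` and a nonempty set of right inverses of `a`.
-/

set_option autoImplicit false

namespace Pool.Agent.Results.MP_722163_an.PartiallyBicyclic

open Q170.FS

theorem result.{u, v} : HasF.{0, v} S2 ∧
    ∀ (S : Type u) [Monoid S] (a : S) (B : Set S), (∀ b ∈ B, a * b = 1) → B.Nonempty →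
      Submonoid.closure (insert a B) = ⊤ → HasF.{u, v} S :=
  ⟨main, fun _ _ a B h1 h2 h3 => hasF_of_gen a B h1 h2 h3⟩

end Pool.Agent.Results.MP_722163_an.PartiallyBicyclic
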